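import Pool.Agent.TH106.PPClasses

/-!
# Index order: groups whose elements have prime power order, and mixtures with commutative classes

Q2 of MP_94c9ac_al has a positive answer for every finite group `G` with a set `S` of commutative
subgroups, meeting pairwise trivially, such that every element outside their union has prime power
order and no nontrivial power in the union. With `S` empty this covers all finite groups all of
whose elements have prime power order, in particular all finite `p`-groups.

Proof idea. The elements of prime power order outside the union split into classes, one for each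
subgroup `Ω` of prime order `p`. If the class of `Ω` has `e` elements and contains more than `e`
terms, these terms lie in the centralizer of `Ω`; cut them into `p` consecutive blocks. In each
block there is, by induction for the centralizer modulo `Ω`, a subsequence with product in `Ω` and
weight at most `1 / p`; some consecutive ones of these `p` products multiply to the identity.
-/

set_option autoImplicit false

namespace Pool.Agent.Results.MP_94c9ac_al.PrimePowerClasses

theorem result (G : Type*) [Group G] [Finite G] (S : Finset (Subgroup G))
    (hcomm : ∀ A ∈ S, ∀ x ∈ A, ∀ y ∈ A, x * y = y * x)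
    (hdisj : ∀ A ∈ S, ∀ B ∈ S, A ≠ B → A ⊓ B = ⊥)
    (hpp : ∀ g : G, (∃ A ∈ S, g ∈ A) ∨ ((∃ p k : ℕ, p.Prime ∧ orderOf g = p ^ k) ∧
      ∀ i : ℕ, g ^ i ≠ 1 → ∀ A ∈ S, g ^ i ∉ A)) :
    ∀ g : Fin (Nat.card G) → G, ∃ l : List (Fin (Nat.card G)), l ≠ [] ∧ l.Pairwise (· < ·) ∧
      (l.map g).prod = 1 ∧ (l.map (fun k => (1 : ℚ) / (orderOf (g k) : ℚ))).sum ≤ 1 :=
  Pool.Agent.TH106.PPClasses.good_classes G S hcomm hdisj hpp

end Pool.Agent.Results.MP_94c9ac_al.PrimePowerClasses
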